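import Pool.Agent.Helper9.UP.StN

/-!
# UP MODULE B2: large prime powers
-/

set_option autoImplicit false

noncomputable section

namespace Pool.Agent.Helper2.UP

open Pool.Agent.Helper9.UP
open Finset Polynomial NumberField Module

/-- the norm of an element of the ball -/
theorem b2_norm (K : Type) [Field K] [NumberField K] (B : ℝ) (x : 𝓞 K)
    (hx : ∀ φ : K →+* ℂ, ‖φ (x : K)‖ ≤ B) : nm K (Ideal.span {x}) ≤ B ^ dg K := by
  have h1 : ((Ideal.absNorm (Ideal.span {x}) : ℕ) : ℝ) = |((Algebra.norm ℚ (x : K) : ℚ) : ℝ)| := by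
    rw [Ideal.absNorm_span_singleton]
    have h2 : (Algebra.norm ℚ (x : K)) = ((Algebra.norm ℤ x : ℤ) : ℚ) :=
      (Algebra.coe_norm_int x).symm
    rw [h2]
    push_cast
    rw [Nat.cast_natAbs]
    push_cast
    rfl
  have h3 := InfinitePlace.prod_eq_abs_norm (K := K) (x : K)
  unfold nm
  rw [h1, ← Rat.cast_abs, ← h3]
  have h4 : ∀ w : InfinitePlace K, w (x : K) ≤ B := (InfinitePlace.le_iff_le (x : K) B).mpr hx
  calc ∏ w : InfinitePlace K, w (x : K) ^ InfinitePlace.mult w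
      ≤ ∏ w : InfinitePlace K, B ^ InfinitePlace.mult w := by
        apply prod_le_prod
        · intro w _
          exact pow_nonneg (apply_nonneg w _) _
        · intro w _
          exact pow_le_pow_left₀ (apply_nonneg w _) (h4 w) _
    _ = B ^ dg K := by
        rw [prod_pow_eq_pow_sum, InfinitePlace.sum_mult_eq]
        rfl

/-- at most `d` primes of the same norm -/
theorem b2_card (K : Type) [Field K] [NumberField K] (n : ℕ) (hn : 2 ≤ n)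
    (s : Finset (Ideal (𝓞 K))) (hs : ∀ P ∈ s, P.IsPrime ∧ P ≠ ⊥ ∧ Ideal.absNorm P = n) :
    s.card ≤ dg K := by
  have h1 : ∏ P ∈ s, P ∣ Ideal.span {((n : ℕ) : 𝓞 K)} := by
    apply Finset.prod_primes_dvd
    · intro P hP
      exact (Ideal.prime_iff_isPrime (hs P hP).2.1).mpr (hs P hP).1
    · intro P hP
      rw [Ideal.dvd_iff_le, Ideal.span_singleton_le_iff_mem, ← (hs P hP).2.2]
      exact Ideal.absNorm_mem P
  have h2 := map_dvd (Ideal.absNorm (S := 𝓞 K)) h1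
  rw [map_prod, prod_congr rfl (fun P hP => (hs P hP).2.2), prod_const,
    Ideal.absNorm_span_natCast, RingOfIntegers.rank] at h2
  exact (Nat.pow_dvd_pow_iff_le_right (by omega)).mp h2

/-- the sum over the norms -/
theorem b2_sum (A : ℝ) (hA : 1 ≤ A) (Z : ℕ) (g : ℕ → ℝ) (hg1 : ∀ m, 2 ≤ m → g m ≤ ((m : ℝ) ^ 2)⁻¹)
    (hg2 : ∀ m, 2 ≤ m → g m ≤ (A ^ 2)⁻¹) : ∑ m ∈ Icc 2 Z, g m ≤ 3 * A⁻¹ := by
  have hA0 : 0 < A := by linarith
  obtain ⟨a, ha⟩ : ∃ a, a = ⌊A⌋₊ := ⟨_, rfl⟩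
  have ha1 : 1 ≤ a := by
    rw [ha]
    exact Nat.le_floor (by exact_mod_cast hA)
  have haA : (a : ℝ) ≤ A := by
    rw [ha]
    exact Nat.floor_le hA0.le
  have hAa : A < a + 1 := by
    rw [ha]
    exact Nat.lt_floor_add_one A
  have ha0 : (0 : ℝ) < a := by exact_mod_cast ha1
  have hsub : Icc 2 Z ⊆ Icc 2 a ∪ Ioc a (max a Z) := by
    intro m hm
    rw [mem_Icc] at hm
    rw [mem_union, mem_Icc, mem_Ioc]
    by_cases h : m ≤ a
    · left
      exact ⟨hm.1, h⟩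
    · right
      exact ⟨by omega, hm.2.trans (le_max_right _ _)⟩
  have hG : ∀ m, 2 ≤ m → g m ≤ max (g m) 0 := fun m _ => le_max_left _ _
  have h1 : ∑ m ∈ Icc 2 Z, g m ≤ ∑ m ∈ Icc 2 a ∪ Ioc a (max a Z), max (g m) 0 := by
    calc ∑ m ∈ Icc 2 Z, g m ≤ ∑ m ∈ Icc 2 Z, max (g m) 0 :=
          sum_le_sum fun m _ => le_max_left _ _
      _ ≤ _ := sum_le_sum_of_subset_of_nonneg hsub fun m _ _ => le_max_right _ _
  have hdisj : Disjoint (Icc 2 a) (Ioc a (max a Z)) := by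
    rw [Finset.disjoint_left]
    intro m hm hm'
    rw [mem_Icc] at hm
    rw [mem_Ioc] at hm'
    omega
  rw [sum_union hdisj] at h1
  have h2 : ∑ m ∈ Icc 2 a, max (g m) 0 ≤ A⁻¹ := by
    have h3 : ∑ m ∈ Icc 2 a, max (g m) 0 ≤ ∑ _m ∈ Icc 2 a, (A ^ 2)⁻¹ := by
      apply sum_le_sum
      intro m hm
      rw [mem_Icc] at hm
      exact max_le (hg2 m hm.1) (by positivity)
    rw [sum_const, Nat.card_Icc, nsmul_eq_mul] at h3
    refine h3.trans ?_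
    have h4 : ((a + 1 - 2 : ℕ) : ℝ) ≤ A := by
      refine le_trans ?_ haA
      exact_mod_cast (by omega : a + 1 - 2 ≤ a)
    calc ((a + 1 - 2 : ℕ) : ℝ) * (A ^ 2)⁻¹ ≤ A * (A ^ 2)⁻¹ :=
          mul_le_mul_of_nonneg_right h4 (by positivity)
      _ = A⁻¹ := by field_simp
  have h5 : ∑ m ∈ Ioc a (max a Z), max (g m) 0 ≤ 2 * A⁻¹ := by
    have h6 : ∑ m ∈ Ioc a (max a Z), max (g m) 0 ≤ ∑ m ∈ Ioc a (max a Z), ((m : ℝ) ^ 2)⁻¹ := by
      apply sum_le_sum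
      intro m hm
      rw [mem_Ioc] at hm
      exact max_le (hg1 m (by omega)) (by positivity)
    have h7 := sum_Ioc_inv_sq_le_sub (α := ℝ) (k := a) (n := max a Z) (by omega) (le_max_left _ _)
    have h8 : (0 : ℝ) ≤ ((max a Z : ℕ) : ℝ)⁻¹ := by positivity
    have h9 : (a : ℝ)⁻¹ ≤ 2 * A⁻¹ := by
      rw [← div_eq_mul_inv, inv_eq_one_div, div_le_div_iff₀ ha0 hA0]
      have : (1 : ℝ) ≤ a := by exact_mod_cast ha1
      linarith
    linarith
  linarith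

open Classical in
theorem hB2 (hU : StUB) : StB2 := by
  intro K _ _ T hT B Y hB hY
  have hd : 1 ≤ dg K := Module.finrank_pos (R := ℚ) (M := K)
  have hT1 : 1 ≤ T := by
    obtain ⟨α, _, h⟩ := hT
    obtain ⟨φ⟩ : Nonempty (K →+* ℂ) := inferInstance
    have h1 := h φ 0 hd
    rw [pow_zero, mul_one] at h1
    have h2 : (1 : ℝ) ≤ (dg K : ℝ) := by exact_mod_cast hd
    linarith
  have hB0 : 0 ≤ B := by nlinarith
  have hY1 : (1 : ℝ) ≤ (Y : ℝ) := by exact_mod_cast hY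
  have hY0 : (0 : ℝ) < (Y : ℝ) := by linarith
  obtain ⟨A, hA⟩ : ∃ A : ℝ, A = (Y : ℝ) ^ (1 / 4 : ℝ) := ⟨_, rfl⟩
  have hA1 : 1 ≤ A := by
    rw [hA]
    exact Real.one_le_rpow hY1 (by norm_num)
  have hA0 : 0 < A := by linarith
  have hA4 : A ^ 4 = (Y : ℝ) := by
    rw [hA, ← Real.rpow_natCast, ← Real.rpow_mul hY0.le]
    norm_num
  have hAinv : (Y : ℝ) ^ (-(1 / 4) : ℝ) = A⁻¹ := by
    rw [hA, Real.rpow_neg hY0.le]
  have hA2Y : A ^ 2 ≤ (Y : ℝ) := by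
    rw [← hA4]
    exact pow_le_pow_right₀ hA1 (by norm_num)
  -- the exponent
  have hex : ∀ m : ℕ, ∃ j : ℕ, 2 ≤ m → 2 ≤ j ∧ A ^ 2 < (m : ℝ) ^ j ∧
      ∀ k, 2 ≤ k → A ^ 2 < (m : ℝ) ^ k → j ≤ k := by
    intro m
    by_cases hm : 2 ≤ m
    · have h1 : ∃ j : ℕ, 2 ≤ j ∧ A ^ 2 < (m : ℝ) ^ j := by
        have hm1 : (1 : ℝ) < (m : ℝ) := by exact_mod_cast (by omega : 1 < m)
        obtain ⟨j, hj⟩ := pow_unbounded_of_one_lt (A ^ 2) hm1
        exact ⟨j + 2, by omega, hj.trans_le (pow_le_pow_right₀ hm1.le (by omega))⟩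
      refine ⟨Nat.find h1, fun _ => ⟨(Nat.find_spec h1).1, (Nat.find_spec h1).2, ?_⟩⟩
      intro k hk hk'
      exact Nat.find_min' h1 ⟨hk, hk'⟩
    · exact ⟨0, fun h => absurd h hm⟩
  choose j hj using hex
  obtain ⟨g, hg⟩ : ∃ g : ℕ → ℝ, g = fun m : ℕ => ((m : ℝ) ^ j m)⁻¹ := ⟨_, rfl⟩
  have hg1 : ∀ m, 2 ≤ m → g m ≤ ((m : ℝ) ^ 2)⁻¹ := by
    intro m hm
    have hm1 : (1 : ℝ) ≤ (m : ℝ) := by exact_mod_cast (by omega : 1 ≤ m)
    rw [hg]
    exact inv_anti₀ (by positivity) (pow_le_pow_right₀ hm1 (hj m hm).1)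
  have hg2 : ∀ m, 2 ≤ m → g m ≤ (A ^ 2)⁻¹ := by
    intro m hm
    rw [hg]
    exact inv_anti₀ (by positivity) (hj m hm).2.1.le
  obtain ⟨Z, hZ⟩ : ∃ Z : ℕ, Z = ⌊B ^ dg K⌋₊ := ⟨_, rfl⟩
  -- facts on primes
  have hprime2 : ∀ P : Ideal (𝓞 K), P.IsPrime → P ≠ ⊥ → 2 ≤ Ideal.absNorm P := by
    intro P hP hP0
    have h0 : Ideal.absNorm P ≠ 0 := by
      rw [Ne, Ideal.absNorm_eq_zero_iff]
      exact hP0
    have h1 : Ideal.absNorm P ≠ 1 := by
      rw [Ne, Ideal.absNorm_eq_one_iff]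
      exact hP.ne_top
    omega
  obtain ⟨Q, hQ⟩ : ∃ Q : Finset (Ideal (𝓞 K)), Q = (pI K Z).filter
      (fun P => nm K P ^ j (Ideal.absNorm P) ≤ B ^ dg K) := ⟨_, rfl⟩
  have hQm : ∀ P, P ∈ Q ↔ (Ideal.absNorm P ≤ Z ∧ P.IsPrime ∧ P ≠ ⊥) ∧
      nm K P ^ j (Ideal.absNorm P) ≤ B ^ dg K := by
    intro P
    rw [hQ, mem_filter, pI, mem_filter, Set.Finite.mem_toFinset]
    rfl
  have hsub : (ball0 K B).filter (fun x : 𝓞 K => ∃ (P : Ideal (𝓞 K)) (k : ℕ), P.IsPrime ∧ P ≠ ⊥ ∧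
      2 ≤ k ∧ (Y : ℝ) < nm K P ^ k ∧ x ∈ P ^ k) ⊆
      Q.biUnion (fun P => (ball K B).filter (fun x => x ∈ P ^ j (Ideal.absNorm P))) := by
    intro x hx
    rw [mem_filter, ball0, mem_filter] at hx
    obtain ⟨⟨hxB, hx0⟩, P, k, hP, hP0, hk, hYk, hxk⟩ := hx
    have hn2 := hprime2 P hP hP0
    have hjk : j (Ideal.absNorm P) ≤ k := by
      apply (hj _ hn2).2.2 k hk
      exact hA2Y.trans_lt hYk
    have hxj : x ∈ P ^ j (Ideal.absNorm P) := Ideal.pow_le_pow_right hjk hxk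
    have hnorm := b2_norm K B x ((mem_ball K B x).mp hxB)
    have hdvd : Ideal.absNorm (P ^ j (Ideal.absNorm P)) ∣ Ideal.absNorm (Ideal.span {x}) :=
      Ideal.absNorm_dvd_absNorm_of_le ((Ideal.span_singleton_le_iff_mem _).mpr hxj)
    have hne : Ideal.absNorm (Ideal.span {x}) ≠ 0 := by
      rw [Ne, Ideal.absNorm_eq_zero_iff, Ideal.span_singleton_eq_bot]
      exact hx0
    have hle : Ideal.absNorm (P ^ j (Ideal.absNorm P)) ≤ Ideal.absNorm (Ideal.span {x}) :=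
      Nat.le_of_dvd (Nat.pos_of_ne_zero hne) hdvd
    have hle' : nm K P ^ j (Ideal.absNorm P) ≤ B ^ dg K := by
      refine le_trans ?_ hnorm
      unfold nm
      rw [map_pow] at hle
      exact_mod_cast hle
    rw [mem_biUnion]
    refine ⟨P, ?_, ?_⟩
    · rw [hQm]
      refine ⟨⟨?_, hP, hP0⟩, hle'⟩
      rw [hZ]
      apply Nat.le_floor
      refine le_trans ?_ hle'
      have h1 : (1 : ℝ) ≤ nm K P := by
        unfold nm
        exact_mod_cast (by omega : 1 ≤ Ideal.absNorm P)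
      have h2 : nm K P ^ 1 ≤ nm K P ^ j (Ideal.absNorm P) :=
        pow_le_pow_right₀ h1 (by have := (hj _ hn2).1; omega)
      rw [pow_one] at h2
      exact h2
    · rw [mem_filter]
      exact ⟨hxB, hxj⟩
  have hnb0 : 0 ≤ nb K B := by
    unfold nb
    positivity
  obtain ⟨c, hc⟩ : ∃ c : ℝ, c = (5 * T ^ 2) ^ dg K * nb K B := ⟨_, rfl⟩
  have hc0 : 0 ≤ c := by
    rw [hc]
    positivity
  have hterm : ∀ P ∈ Q, (((ball K B).filter (fun x => x ∈ P ^ j (Ideal.absNorm P))).card : ℝ) ≤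
      c * g (Ideal.absNorm P) := by
    intro P hP
    obtain ⟨⟨_, hPp, hP0⟩, hle⟩ := (hQm P).mp hP
    have hn2 := hprime2 P hPp hP0
    have hpow : nm K (P ^ j (Ideal.absNorm P)) = nm K P ^ j (Ideal.absNorm P) := by
      unfold nm
      rw [map_pow]
      push_cast
      rfl
    have h1 := hU K T hT B (P ^ j (Ideal.absNorm P)) hB (pow_ne_zero _ hP0) (by rw [hpow]; exact hle)
    rw [hpow, ← hc] at h1
    have hpos : 0 < nm K P ^ j (Ideal.absNorm P) := by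
      apply pow_pos
      unfold nm
      exact_mod_cast (by omega : 0 < Ideal.absNorm P)
    have h2 : ni K (P ^ j (Ideal.absNorm P)) B ≤ c / nm K P ^ j (Ideal.absNorm P) := by
      rw [le_div_iff₀ hpos]
      linarith
    rw [hg]
    exact h2
  have hcard : (((ball0 K B).filter (fun x : 𝓞 K => ∃ (P : Ideal (𝓞 K)) (k : ℕ), P.IsPrime ∧
      P ≠ ⊥ ∧ 2 ≤ k ∧ (Y : ℝ) < nm K P ^ k ∧ x ∈ P ^ k)).card : ℝ) ≤
      ∑ P ∈ Q, c * g (Ideal.absNorm P) := by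
    have h1 := (card_le_card hsub).trans card_biUnion_le
    calc (((ball0 K B).filter (fun x : 𝓞 K => ∃ (P : Ideal (𝓞 K)) (k : ℕ), P.IsPrime ∧
      P ≠ ⊥ ∧ 2 ≤ k ∧ (Y : ℝ) < nm K P ^ k ∧ x ∈ P ^ k)).card : ℝ)
        ≤ ((∑ P ∈ Q, ((ball K B).filter (fun x => x ∈ P ^ j (Ideal.absNorm P))).card : ℕ) : ℝ) := by
          exact_mod_cast h1
      _ = ∑ P ∈ Q, (((ball K B).filter (fun x => x ∈ P ^ j (Ideal.absNorm P))).card : ℝ) := by
          push_cast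
          rfl
      _ ≤ _ := sum_le_sum hterm
  have hgnn : ∀ m, 0 ≤ g m := by
    intro m
    rw [hg]
    positivity
  have hgroup : ∑ P ∈ Q, g (Ideal.absNorm P) ≤ ∑ m ∈ Icc 2 Z, (dg K : ℝ) * g m := by
    have hmaps : ∀ P ∈ Q, Ideal.absNorm P ∈ Icc 2 Z := by
      intro P hP
      obtain ⟨⟨h1, hPp, hP0⟩, _⟩ := (hQm P).mp hP
      rw [mem_Icc]
      exact ⟨hprime2 P hPp hP0, h1⟩
    rw [← sum_fiberwise_of_maps_to hmaps]
    apply sum_le_sum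
    intro m hm
    rw [mem_Icc] at hm
    have h1 : ∑ P ∈ Q.filter (fun P => Ideal.absNorm P = m), g (Ideal.absNorm P) =
        ∑ _P ∈ Q.filter (fun P => Ideal.absNorm P = m), g m := by
      apply sum_congr rfl
      intro P hP
      rw [(mem_filter.mp hP).2]
    rw [h1, sum_const, nsmul_eq_mul]
    apply mul_le_mul_of_nonneg_right _ (hgnn m)
    have h2 := b2_card K m hm.1 (Q.filter (fun P => Ideal.absNorm P = m)) (by
      intro P hP
      obtain ⟨h3, h4⟩ := mem_filter.mp hP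
      obtain ⟨⟨_, hPp, hP0⟩, _⟩ := (hQm P).mp h3
      exact ⟨hPp, hP0, h4⟩)
    exact_mod_cast h2
  have hsum := b2_sum A hA1 Z g hg1 hg2
  rw [hAinv]
  refine hcard.trans ?_
  rw [← mul_sum]
  calc c * ∑ P ∈ Q, g (Ideal.absNorm P) ≤ c * ∑ m ∈ Icc 2 Z, (dg K : ℝ) * g m :=
        mul_le_mul_of_nonneg_left hgroup hc0
    _ = c * ((dg K : ℝ) * ∑ m ∈ Icc 2 Z, g m) := by rw [mul_sum (Icc 2 Z) g (dg K : ℝ)]
    _ ≤ c * ((dg K : ℝ) * (3 * A⁻¹)) := by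
        apply mul_le_mul_of_nonneg_left _ hc0
        exact mul_le_mul_of_nonneg_left hsum (by positivity)
    _ = 3 * (dg K : ℝ) * (5 * T ^ 2) ^ dg K * A⁻¹ * nb K B := by
        rw [hc]
        ring

end Pool.Agent.Helper2.UP

end
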