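import Pool.Agent.Helper9.UP.StC

/-! Module PT of project UP (MP_d466de). -/

set_option autoImplicit false

namespace Pool.Agent.Helper2.UP

open Finset Polynomial
open Pool.Agent.Helper9.UP

theorem hPT (hP : StPO) : StPT := by
  classical
  intro Λ f N m hf hlc hN hlog hNm hmN hsq hsum
  have hd1 : 1 ≤ f.natDegree := hf.deg
  have hdr : (1 : ℝ) ≤ f.natDegree := by exact_mod_cast hd1
  have hΛ1 : 1 ≤ Λ := hdr.trans hf.degLe
  have hexp : 0 < Real.exp Λ := Real.exp_pos _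
  have hNr : (0 : ℝ) < N := by linarith
  have hNmr : (N : ℝ) < m := by exact_mod_cast hNm
  have hmr : (0 : ℝ) < m := by linarith
  obtain ⟨p1, p2, p3⟩ := hP Λ f hf hlc m (by linarith)
  obtain ⟨n, hn⟩ : ∃ n, n = val f m := ⟨_, rfl⟩
  rw [← hn] at p2 p3 hsq hsum ⊢
  have hn1 : 1 < n := by
    rw [← p2] at p1
    exact_mod_cast p1
  refine ⟨hn1, ?_⟩
  obtain ⟨d, hd⟩ : ∃ d, d = f.natDegree := ⟨_, rfl⟩
  rw [← hd] at p3 hd1 hdr ⊢
  have hdΛ : (d : ℝ) ≤ Λ := by rw [hd]; exact hf.degLe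
  obtain ⟨lN, hlN⟩ : ∃ lN : ℝ, lN = Real.log N := ⟨_, rfl⟩
  rw [← hlN] at hlog hsum
  have hlN0 : 0 < lN := by linarith
  have hnr : (0 : ℝ) < n := by
    have : 0 < n := by omega
    exact_mod_cast this
  -- size
  have hlogn : Real.log n ≤ (d + 1 / 100) * lN := by
    have h1 : Real.log n ≤ Real.log ((d + 1) * Real.exp Λ * (m : ℝ) ^ d) := Real.log_le_log hnr p3
    rw [Real.log_mul (by positivity) (by positivity), Real.log_mul (by positivity) (by positivity),
      Real.log_exp, Real.log_pow] at h1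
    have h2 : Real.log ((d : ℝ) + 1) ≤ d := by
      have := Real.log_le_sub_one_of_pos (show (0 : ℝ) < (d : ℝ) + 1 by positivity)
      linarith
    have h3 : Real.log m ≤ Real.log 2 + lN := by
      rw [hlN, ← Real.log_mul (by norm_num) hNr.ne']
      refine Real.log_le_log hmr ?_
      exact_mod_cast hmN
    have h4 : Real.log 2 ≤ 1 := by
      have := Real.log_two_lt_d9
      linarith
    have h5 : (d : ℝ) * Real.log m ≤ d * (1 + lN) :=
      mul_le_mul_of_nonneg_left (by linarith) (by positivity)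
    linarith
  by_contra hcon
  have hΩ : d + 2 ≤ ArithmeticFunction.cardFactors n := by omega
  obtain ⟨v, hv⟩ : ∃ v : ℕ → ℕ, ∀ p, v p = n.factorization p := ⟨_, fun p => rfl⟩
  have hΩ2 : (ArithmeticFunction.cardFactors n : ℝ) = ∑ p ∈ n.primeFactors, (v p : ℝ) := by
    rw [ArithmeticFunction.cardFactors_eq_sum_factorization, Finsupp.sum,
      Nat.support_factorization, Nat.cast_sum]
    exact sum_congr rfl fun p _ => by rw [hv]
  have hlogs : Real.log n = ∑ p ∈ n.primeFactors, (v p : ℝ) * Real.log p := by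
    rw [Real.log_nat_eq_sum_factorization, Finsupp.sum, Nat.support_factorization]
    exact sum_congr rfl fun p _ => by rw [hv]
  obtain ⟨w, hw⟩ : ∃ w : ℝ, w = vd f := ⟨_, rfl⟩
  have hwe : w = 2 * (d : ℝ) / (2 * d + 1) := by rw [hw, hd]; rfl
  rw [← hw] at hsum hsq
  obtain ⟨t, ht⟩ : ∃ t : ℕ → ℝ, ∀ p, t p = Real.log p / lN := ⟨_, fun p => rfl⟩
  -- total
  have htot : (d : ℝ) + 2 - (d + 1 / 100) ≤ ∑ p ∈ n.primeFactors, (v p : ℝ) * (1 - t p) := by
    have h1 : ∑ p ∈ n.primeFactors, (v p : ℝ) * (1 - t p) =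
        ArithmeticFunction.cardFactors n - Real.log n / lN := by
      rw [hΩ2, hlogs, sum_div, ← sum_sub_distrib]
      refine sum_congr rfl fun p _ => ?_
      rw [ht]
      ring
    have h2 : Real.log n / lN ≤ d + 1 / 100 := by
      rw [div_le_iff₀ hlN0]
      exact hlogn
    have h3 : (d : ℝ) + 2 ≤ ArithmeticFunction.cardFactors n := by exact_mod_cast hΩ
    rw [h1]
    linarith
  have hsplit : ∑ p ∈ n.primeFactors, (v p : ℝ) * (1 - t p) =
      ∑ p ∈ n.primeFactors.filter (fun p : ℕ => (p : ℝ) ≤ (N : ℝ) ^ w), (v p : ℝ) * (1 - t p) +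
      ∑ p ∈ n.primeFactors.filter (fun p : ℕ => ¬ (p : ℝ) ≤ (N : ℝ) ^ w), (v p : ℝ) * (1 - t p) :=
    (sum_filter_add_sum_filter_not _ _ _).symm
  have hA : ∑ p ∈ n.primeFactors.filter (fun p : ℕ => (p : ℝ) ≤ (N : ℝ) ^ w),
      (v p : ℝ) * (1 - t p) =
      ∑ p ∈ n.primeFactors.filter (fun p : ℕ => (p : ℝ) ≤ (N : ℝ) ^ w), (1 - t p) := by
    refine sum_congr rfl fun p hp => ?_
    rw [mem_filter] at hp
    have hpp := Nat.prime_of_mem_primeFactors hp.1
    have h1 : v p = 1 := by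
      rw [hv]
      have h2 : ¬ p ^ 2 ∣ n := hsq p hpp hp.2
      have h3 : n.factorization p < 2 := by
        by_contra h4
        exact h2 ((hpp.pow_dvd_iff_le_factorization (by omega)).2 (not_lt.1 h4))
      have h4 : 0 < n.factorization p :=
        hpp.factorization_pos_of_dvd (by omega) (Nat.dvd_of_mem_primeFactors hp.1)
      omega
    rw [h1, Nat.cast_one, one_mul]
  have hAlt : 7 / 10 * ∑ p ∈ n.primeFactors.filter (fun p : ℕ => (p : ℝ) ≤ (N : ℝ) ^ w),
      (1 - t p) < 1 := by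
    refine lt_of_le_of_lt (le_of_eq ?_) hsum
    congr 1
    exact sum_congr rfl fun p _ => by rw [ht]
  -- the large primes
  obtain ⟨B, hB⟩ : ∃ B : Finset ℕ,
      B = n.primeFactors.filter (fun p : ℕ => ¬ (p : ℝ) ≤ (N : ℝ) ^ w) := ⟨_, rfl⟩
  have htB : ∀ p ∈ B, w ≤ t p := by
    intro p hp
    rw [hB, mem_filter] at hp
    rw [ht, le_div_iff₀ hlN0, hlN, ← Real.log_rpow hNr]
    exact Real.log_le_log (Real.rpow_pos_of_pos hNr _) (not_le.1 hp.2).le
  have hbw : (∑ p ∈ B, (v p : ℝ)) * w ≤ d + 1 / 100 := by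
    have h1 : (∑ p ∈ B, (v p : ℝ)) * w ≤ ∑ p ∈ B, (v p : ℝ) * t p := by
      rw [sum_mul]
      exact sum_le_sum fun p hp => mul_le_mul_of_nonneg_left (htB p hp) (Nat.cast_nonneg _)
    have h2 : ∑ p ∈ B, (v p : ℝ) * t p ≤ ∑ p ∈ n.primeFactors, (v p : ℝ) * t p := by
      rw [hB]
      refine sum_le_sum_of_subset_of_nonneg (filter_subset _ _) fun p hp _ => ?_
      rw [ht]
      have h3 : 0 ≤ Real.log p := Real.log_natCast_nonneg p
      positivity
    have h3 : ∑ p ∈ n.primeFactors, (v p : ℝ) * t p = Real.log n / lN := by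
      rw [hlogs, sum_div]
      refine sum_congr rfl fun p _ => ?_
      rw [ht]
      ring
    have h4 : Real.log n / lN ≤ d + 1 / 100 := by
      rw [div_le_iff₀ hlN0]
      exact hlogn
    linarith
  have hw1 : w * (2 * d + 1) = 2 * d := by
    rw [hwe]
    field_simp
  have hd0 : (0 : ℝ) < d := by linarith
  have hbd : ∑ p ∈ B, (v p : ℝ) ≤ d := by
    have h1 : (∑ p ∈ B, (v p : ℝ)) * (2 * d) ≤ (d + 1 / 100) * (2 * d + 1) := by
      calc (∑ p ∈ B, (v p : ℝ)) * (2 * d) = (∑ p ∈ B, (v p : ℝ)) * w * (2 * d + 1) := by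
            rw [mul_assoc, hw1]
        _ ≤ (d + 1 / 100) * (2 * d + 1) := mul_le_mul_of_nonneg_right hbw (by positivity)
    have h2 : ∑ p ∈ B, (v p : ℝ) < d + 1 := by
      by_contra h3
      have h4 : ((d : ℝ) + 1) * (2 * d) ≤ (∑ p ∈ B, (v p : ℝ)) * (2 * d) :=
        mul_le_mul_of_nonneg_right (not_lt.1 h3) (by positivity)
      nlinarith
    have h3 : ∑ p ∈ B, v p < d + 1 := by exact_mod_cast h2
    have h4 : ∑ p ∈ B, v p ≤ d := by omega
    exact_mod_cast h4
  have hBs : ∑ p ∈ B, (v p : ℝ) * (1 - t p) ≤ 1 / 2 := by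
    have h1 : ∑ p ∈ B, (v p : ℝ) * (1 - t p) ≤ ∑ p ∈ B, (v p : ℝ) * (1 - w) :=
      sum_le_sum fun p hp => mul_le_mul_of_nonneg_left (by linarith [htB p hp])
        (Nat.cast_nonneg _)
    rw [← sum_mul] at h1
    have h2 : 1 - w = 1 / (2 * d + 1) := by
      rw [hwe]
      field_simp
      ring
    rw [h2] at h1
    refine h1.trans ?_
    calc (∑ p ∈ B, (v p : ℝ)) * (1 / (2 * d + 1)) ≤ d * (1 / (2 * d + 1)) :=
          mul_le_mul_of_nonneg_right hbd (by positivity)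
      _ ≤ 1 / 2 := by
          rw [mul_one_div, div_le_div_iff₀ (by positivity) (by norm_num)]
          linarith
  rw [hsplit, hA, ← hB] at htot
  linarith

end Pool.Agent.Helper2.UP
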