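import Pool.Agent.Helper9.UP.StC

/-! Module SQ of project UP (MP_d466de). -/

set_option autoImplicit false

namespace Pool.Agent.Helper2.UP

open Finset Polynomial
open Pool.Agent.Helper9.UP

/-- integers of an interval in one class -/
theorem sq_class (N q r : ℕ) (hq : 0 < q) :
    (((Ioc N (2 * N)).filter (fun m : ℕ => m ≡ r [MOD q])).card : ℝ) ≤ (N : ℝ) / q + 1 := by
  have h1 := Nat.Ioc_filter_modEq_card N (2 * N) hq r
  have hq0 : (0 : ℚ) < q := by exact_mod_cast hq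
  have h2 : ((((Ioc N (2 * N)).filter (fun m : ℕ => m ≡ r [MOD q])).card : ℕ) : ℤ) ≤
      max (⌊((2 * N : ℕ) - (r : ℚ)) / q⌋ - ⌊((N : ℚ) - r) / q⌋) 0 := by
    rw [h1]
  have h3 : ((⌊((2 * N : ℕ) - (r : ℚ)) / q⌋ - ⌊((N : ℚ) - r) / q⌋ : ℤ) : ℚ) ≤ (N : ℚ) / q + 1 := by
    push_cast
    have h4 := Int.floor_le (((2 : ℚ) * N - r) / q)
    have h5 := Int.lt_floor_add_one (((N : ℚ) - r) / q)
    have h6 : ((2 : ℚ) * N - r) / q - ((N : ℚ) - r) / q = N / q := by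
      field_simp
      ring
    linarith
  have h7 : ((((Ioc N (2 * N)).filter (fun m : ℕ => m ≡ r [MOD q])).card : ℕ) : ℚ) ≤
      (N : ℚ) / q + 1 := by
    have h8 : ((((Ioc N (2 * N)).filter (fun m : ℕ => m ≡ r [MOD q])).card : ℕ) : ℚ) ≤
        ((max (⌊((2 * N : ℕ) - (r : ℚ)) / q⌋ - ⌊((N : ℚ) - r) / q⌋) 0 : ℤ) : ℚ) := by
      exact_mod_cast h2
    refine h8.trans ?_
    rw [Int.cast_max]
    refine max_le h3 ?_
    rw [Int.cast_zero]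
    positivity
  have h9 := (Rat.cast_le (K := ℝ)).2 h7
  rw [Rat.cast_add, Rat.cast_div, Rat.cast_natCast, Rat.cast_natCast, Rat.cast_natCast,
    Rat.cast_one] at h9
  exact h9

/-- integers of an interval with a divisible value -/
theorem sq_count (f : ℤ[X]) (N q : ℕ) (hq : 0 < q) :
    (((Ioc N (2 * N)).filter (fun m : ℕ => (q : ℤ) ∣ f.eval (m : ℤ))).card : ℝ) ≤
      (rho f q : ℝ) * ((N : ℝ) / q + 1) := by
  classical
  have h1 : (Ioc N (2 * N)).filter (fun m : ℕ => (q : ℤ) ∣ f.eval (m : ℤ)) ⊆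
      ((range q).filter (fun r : ℕ => (q : ℤ) ∣ f.eval (r : ℤ))).biUnion
        (fun r => (Ioc N (2 * N)).filter (fun m : ℕ => m ≡ r [MOD q])) := by
    intro m hm
    rw [mem_filter] at hm
    rw [mem_biUnion]
    refine ⟨m % q, mem_filter.2 ⟨mem_range.2 (Nat.mod_lt _ hq), ?_⟩,
      mem_filter.2 ⟨hm.1, (Nat.mod_modEq m q).symm⟩⟩
    have h2 : (q : ℤ) ∣ (m : ℤ) - ((m % q : ℕ) : ℤ) := by
      refine ⟨((m / q : ℕ) : ℤ), ?_⟩
      have h3 := Nat.div_add_mod m q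
      have h4 : ((q * (m / q) + m % q : ℕ) : ℤ) = (m : ℤ) := by rw [h3]
      rw [Nat.cast_add, Nat.cast_mul] at h4
      linarith
    have h5 := h2.trans (Polynomial.sub_dvd_eval_sub (m : ℤ) ((m % q : ℕ) : ℤ) f)
    exact (dvd_sub_right hm.2).1 h5
  have h6 := card_le_card h1
  have h7 : ((((range q).filter (fun r : ℕ => (q : ℤ) ∣ f.eval (r : ℤ))).biUnion
      (fun r => (Ioc N (2 * N)).filter (fun m : ℕ => m ≡ r [MOD q]))).card : ℝ) ≤
      ∑ r ∈ (range q).filter (fun r : ℕ => (q : ℤ) ∣ f.eval (r : ℤ)),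
        (((Ioc N (2 * N)).filter (fun m : ℕ => m ≡ r [MOD q])).card : ℝ) := by
    exact_mod_cast card_biUnion_le
  calc (((Ioc N (2 * N)).filter (fun m : ℕ => (q : ℤ) ∣ f.eval (m : ℤ))).card : ℝ)
      ≤ ((((range q).filter (fun r : ℕ => (q : ℤ) ∣ f.eval (r : ℤ))).biUnion
        (fun r => (Ioc N (2 * N)).filter (fun m : ℕ => m ≡ r [MOD q]))).card : ℝ) := by
        exact_mod_cast h6
    _ ≤ _ := h7
    _ ≤ ∑ r ∈ (range q).filter (fun r : ℕ => (q : ℤ) ∣ f.eval (r : ℤ)), ((N : ℝ) / q + 1) :=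
        sum_le_sum fun r _ => sq_class N q r hq
    _ = (rho f q : ℝ) * ((N : ℝ) / q + 1) := by
        rw [sum_const, nsmul_eq_mul]
        rfl

theorem hSQ (hB : StBR) (hRO : StRO) : StSQ := by
  classical
  obtain ⟨C1, Λ1, hC1, hB⟩ := hB
  refine ⟨max C1 1, Λ1, le_max_right _ _, fun Λ hΛ f hf N z y hz hzy => ?_⟩
  obtain ⟨Δ, hΔ1, hΔ2, hΔ3⟩ := hB Λ hΛ f hf
  have hΛ1 : 1 ≤ Λ := by
    have h1 : (1 : ℝ) ≤ f.natDegree := by exact_mod_cast hf.deg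
    exact h1.trans hf.degLe
  have hΛ3 : 0 < Λ ^ 3 := by positivity
  have h2 : Real.log Δ ≤ Real.log z := hΔ2.trans
    ((mul_le_mul_of_nonneg_right (le_max_left _ _) hΛ3.le).trans hz)
  have hlz : 0 < Real.log z := lt_of_lt_of_le (mul_pos (lt_max_of_lt_right one_pos) hΛ3) hz
  have hz0 : z ≠ 0 := by
    rintro rfl
    rw [Nat.cast_zero, Real.log_zero] at hlz
    exact lt_irrefl _ hlz
  have hzr : (0 : ℝ) < z := by exact_mod_cast Nat.pos_of_ne_zero hz0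
  have hΔz : Δ ≤ z := by
    have h3 : (Δ : ℝ) ≤ z := (Real.log_le_log_iff (by exact_mod_cast hΔ1) hzr).1 h2
    exact_mod_cast h3
  have hd0 : (0 : ℝ) ≤ f.natDegree := Nat.cast_nonneg _
  have hrho : ∀ p : ℕ, p.Prime → z < p → rho f (p ^ 2) ≤ f.natDegree := by
    intro p hp hzp
    refine (hΔ3 p hp ?_).trans (hRO Λ f hf p hp)
    intro h
    have := Nat.le_of_dvd (by omega) h
    omega
  have hset : ∀ m : ℕ, m ∈ (Ioc N (2 * N)).filter (fun m : ℕ => ∃ p : ℕ, p.Prime ∧ z < p ∧ p ≤ y ∧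
      ((p ^ 2 : ℕ) : ℤ) ∣ f.eval (m : ℤ)) ↔ N < m ∧ m ≤ 2 * N ∧ ∃ p : ℕ, p.Prime ∧ z < p ∧ p ≤ y ∧
      ((p ^ 2 : ℕ) : ℤ) ∣ f.eval (m : ℤ) := by
    intro m
    rw [mem_filter, mem_Ioc, and_assoc]
  rw [Nat.subtype_card _ hset]
  have hsub : (Ioc N (2 * N)).filter (fun m : ℕ => ∃ p : ℕ, p.Prime ∧ z < p ∧ p ≤ y ∧
      ((p ^ 2 : ℕ) : ℤ) ∣ f.eval (m : ℤ)) ⊆ ((Ioc z y).filter Nat.Prime).biUnion
      (fun p => (Ioc N (2 * N)).filter (fun m : ℕ => ((p ^ 2 : ℕ) : ℤ) ∣ f.eval (m : ℤ))) := by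
    intro m hm
    rw [mem_filter] at hm
    obtain ⟨h1, p, hp, h3, h4, h5⟩ := hm
    exact mem_biUnion.2 ⟨p, mem_filter.2 ⟨mem_Ioc.2 ⟨h3, h4⟩, hp⟩, mem_filter.2 ⟨h1, h5⟩⟩
  have h7 : (((((Ioc z y).filter Nat.Prime).biUnion
      (fun p => (Ioc N (2 * N)).filter (fun m : ℕ => ((p ^ 2 : ℕ) : ℤ) ∣ f.eval (m : ℤ)))).card : ℕ)
        : ℝ) ≤ ∑ p ∈ (Ioc z y).filter Nat.Prime,
        (((Ioc N (2 * N)).filter (fun m : ℕ => ((p ^ 2 : ℕ) : ℤ) ∣ f.eval (m : ℤ))).card : ℝ) := by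
    exact_mod_cast card_biUnion_le
  calc (((Ioc N (2 * N)).filter (fun m : ℕ => ∃ p : ℕ, p.Prime ∧ z < p ∧ p ≤ y ∧
      ((p ^ 2 : ℕ) : ℤ) ∣ f.eval (m : ℤ))).card : ℝ)
      ≤ _ := by exact_mod_cast card_le_card hsub
    _ ≤ _ := h7
    _ ≤ ∑ p ∈ (Ioc z y).filter Nat.Prime,
        ((f.natDegree : ℝ) * N * ((p : ℝ) ^ 2)⁻¹ + f.natDegree) := by
        refine sum_le_sum fun p hp => ?_
        rw [mem_filter, mem_Ioc] at hp
        refine (sq_count f N (p ^ 2) (by have := hp.2.pos; positivity)).trans ?_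
        have h8 : (rho f (p ^ 2) : ℝ) ≤ f.natDegree := by
          exact_mod_cast hrho p hp.2 hp.1.1
        calc (rho f (p ^ 2) : ℝ) * ((N : ℝ) / ((p ^ 2 : ℕ) : ℝ) + 1)
            ≤ f.natDegree * ((N : ℝ) / ((p ^ 2 : ℕ) : ℝ) + 1) :=
              mul_le_mul_of_nonneg_right h8 (by positivity)
          _ = (f.natDegree : ℝ) * N * ((p : ℝ) ^ 2)⁻¹ + f.natDegree := by
              push_cast
              ring
    _ ≤ ∑ p ∈ Ioc z y, ((f.natDegree : ℝ) * N * ((p : ℝ) ^ 2)⁻¹ + f.natDegree) :=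
        sum_le_sum_of_subset_of_nonneg (filter_subset _ _) fun p _ _ => by positivity
    _ = (f.natDegree : ℝ) * N * ∑ p ∈ Ioc z y, ((p : ℝ) ^ 2)⁻¹ +
        ((y - z : ℕ) : ℝ) * f.natDegree := by
        rw [sum_add_distrib, ← mul_sum, sum_const, nsmul_eq_mul, Nat.card_Ioc]
    _ ≤ (f.natDegree : ℝ) * N * (z : ℝ)⁻¹ + (y : ℝ) * f.natDegree := by
        have h9 : ∑ p ∈ Ioc z y, ((p : ℝ) ^ 2)⁻¹ ≤ (z : ℝ)⁻¹ := by
          refine (sum_Ioc_inv_sq_le_sub hz0 hzy).trans ?_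
          have : (0 : ℝ) ≤ (y : ℝ)⁻¹ := by positivity
          linarith
        have h10 : ((y - z : ℕ) : ℝ) ≤ y := by exact_mod_cast Nat.sub_le y z
        exact add_le_add (mul_le_mul_of_nonneg_left h9 (by positivity))
          (mul_le_mul_of_nonneg_right h10 hd0)
    _ = (f.natDegree : ℝ) * N / z + f.natDegree * y := by
        rw [div_eq_mul_inv]
        ring

end Pool.Agent.Helper2.UP
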