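import Pool.Agent.Helper9.UP.StN

/-!
# UP MODULE UB: upper bound for the number of points of an ideal
-/

set_option autoImplicit false

noncomputable section

namespace Pool.Agent.Helper2.UP

open Pool.Agent.Helper9.UP
open Finset Polynomial NumberField Module

theorem nb_mono (K : Type) [Field K] [NumberField K] {B B' : ℝ} (h : B ≤ B') :
    nb K B ≤ nb K B' := by
  unfold nb
  have : ball K B ⊆ ball K B' := by
    intro x hx
    rw [mem_ball] at hx ⊢
    intro φ
    exact (hx φ).trans h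
  exact_mod_cast card_le_card this

theorem dg_pos (K : Type) [Field K] [NumberField K] : 1 ≤ dg K :=
  Module.finrank_pos (R := ℚ) (M := K)

theorem gen_one_le (K : Type) [Field K] [NumberField K] (T : ℝ) (hT : Gen K T) : 1 ≤ T := by
  obtain ⟨α, _, h⟩ := hT
  obtain ⟨φ⟩ : Nonempty (K →+* ℂ) := inferInstance
  have h1 := h φ 0 (dg_pos K)
  rw [pow_zero, mul_one] at h1
  have h2 : (1 : ℝ) ≤ (dg K : ℝ) := by exact_mod_cast dg_pos K
  linarith

theorem hUB (hD : StDC) (hR : StRG) : StUB := by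
  intro K _ _ T hT B I hB hI hn
  have hT1 := gen_one_le K T hT
  have hd := dg_pos K
  have hB0 : 0 ≤ B := by nlinarith
  have h1 := (hD K T hT I hI B).1
  have h2 := (hR K T hT B).2.1 hB
  refine h1.trans ((nb_mono K ?_).trans h2)
  have hn0 : 0 ≤ nm K I := by
    unfold nm
    positivity
  have h3 : nm K I ^ (1 / (dg K : ℝ)) ≤ B := by
    have h4 : nm K I ^ (1 / (dg K : ℝ)) ≤ (B ^ dg K) ^ (1 / (dg K : ℝ)) :=
      Real.rpow_le_rpow hn0 hn (by positivity)
    rw [← Real.rpow_natCast B, ← Real.rpow_mul hB0] at h4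
    have h5 : (dg K : ℝ) * (1 / (dg K : ℝ)) = 1 := by
      have : (dg K : ℝ) ≠ 0 := by
        have : 0 < dg K := hd
        positivity
      field_simp
    rwa [h5, Real.rpow_one] at h4
  have h6 : T ^ 2 * nm K I ^ (1 / (dg K : ℝ)) ≤ T ^ 2 * B :=
    mul_le_mul_of_nonneg_left h3 (sq_nonneg _)
  have h7 : B ≤ T ^ 2 * B := by nlinarith [mul_nonneg (by nlinarith : (0 : ℝ) ≤ T ^ 2 - 1) hB0]
  linarith

end Pool.Agent.Helper2.UP

end
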