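import Pool.Agent.Helper9.UP.StW

/-! Module US of project UP (MP_d466de). -/

set_option autoImplicit false

namespace Pool.Agent.Helper2.UP

open Finset Polynomial
open Pool.Agent.Helper9.UP
open Pool.Agent.Helper9.TW (gm)

theorem us_reg {ε ε' X ω : ℝ} {j0 Nm : ℕ} {g : ℕ → ℝ} (h : Reg ε X ω j0 Nm g) (hε : ε ≤ ε') :
    Reg ε' X ω j0 Nm g :=
  ⟨h.1, h.2.1, fun i h1 h2 => (h.2.2 i h1 h2).trans hε⟩

theorem us_Pr (X ω : ℝ) (j0 j p : ℕ) (h : p ∈ Pr X ω j0 j) : p ∈ Pr X ω j0 (j + 1) := by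
  unfold Pr at h ⊢
  obtain ⟨i, hi, hp⟩ := mem_biUnion.1 h
  rw [mem_Ico] at hi
  exact mem_biUnion.2 ⟨i, mem_Ico.2 ⟨hi.1, by omega⟩, hp⟩

theorem us_Prj (X ω : ℝ) (j0 j p : ℕ) (hj : j0 ≤ j) (h : p ∈ bx X ω j) :
    p ∈ Pr X ω j0 (j + 1) := by
  unfold Pr
  exact mem_biUnion.2 ⟨j, mem_Ico.2 ⟨hj, Nat.lt_succ_self j⟩, h⟩

theorem us_ind (X ω : ℝ) (j0 j n : ℕ) (hj : j0 ≤ j) (S1 S2 : ℝ) (h1 : ind X ω j0 j n ≤ S1)
    (h2 : S2 ≤ ind X ω j0 j n) :
    ind X ω j0 (j + 1) n ≤ S1 - (ej X ω j n : ℝ) * S2 +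
      (ej X ω j n : ℝ) * ((ej X ω j n : ℝ) - 1) / 2 := by
  classical
  obtain ⟨e, he⟩ : ∃ e : ℕ, e = ej X ω j n := ⟨_, rfl⟩
  rw [← he]
  have he0 : (0 : ℝ) ≤ e := Nat.cast_nonneg _
  have h3 : (e : ℝ) * S2 ≤ e * ind X ω j0 j n := mul_le_mul_of_nonneg_left h2 he0
  refine le_trans ?_ (by
    have : ind X ω j0 j n - (e : ℝ) * ind X ω j0 j n + (e : ℝ) * ((e : ℝ) - 1) / 2 ≤
      S1 - (e : ℝ) * S2 + (e : ℝ) * ((e : ℝ) - 1) / 2 := by linarith
    exact this)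
  by_cases hA : ∃ p ∈ Pr X ω j0 (j + 1), p ∣ n
  · have hi : ind X ω j0 (j + 1) n = 0 := if_pos hA
    rw [hi]
    have hk : 0 ≤ (e : ℝ) * ((e : ℝ) - 1) := by
      rcases Nat.eq_zero_or_pos e with h | h
      · rw [h]
        norm_num
      · have : (1 : ℝ) ≤ e := by exact_mod_cast h
        exact mul_nonneg he0 (by linarith)
    by_cases hB : ∃ p ∈ Pr X ω j0 j, p ∣ n
    · have hi2 : ind X ω j0 j n = 0 := if_pos hB
      rw [hi2]
      linarith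
    · have hi2 : ind X ω j0 j n = 1 := if_neg hB
      rw [hi2]
      have hq : 0 ≤ ((e : ℝ) - 1) * ((e : ℝ) - 2) := by
        rcases Nat.lt_or_ge e 2 with h | h
        · have : (e : ℝ) ≤ 1 := by
            have h' : e ≤ 1 := by omega
            exact_mod_cast h'
          exact mul_nonneg_of_nonpos_of_nonpos (by linarith) (by linarith)
        · have : (2 : ℝ) ≤ e := by exact_mod_cast h
          exact mul_nonneg (by linarith) (by linarith)
      linarith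
  · have hi : ind X ω j0 (j + 1) n = 1 := if_neg hA
    have hB : ¬ ∃ p ∈ Pr X ω j0 j, p ∣ n := fun ⟨p, hp, hd⟩ => hA ⟨p, us_Pr _ _ _ _ _ hp, hd⟩
    have hi2 : ind X ω j0 j n = 1 := if_neg hB
    have he1 : e = 0 := by
      rw [he]
      unfold ej
      rw [card_eq_zero, filter_eq_empty_iff]
      intro p hp hd
      exact hA ⟨p, us_Prj X ω j0 j p hj hp, hd⟩
    rw [hi, hi2, he1]
    norm_num

theorem hUS (hB : StWB) (hP : StWP) : StUS := by
  intro ω j0 Nm N j μ μ' hω hj0 hj hN hNm hNω ⟨B1, hB1, h1⟩ ⟨B2, hB2, h2⟩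
  refine ⟨B1 + B2 + 1, by linarith, fun η hη => ?_⟩
  obtain ⟨W, hW⟩ : ∃ W : ℝ, W = |μ'| + 2 * |gm j| + 2 := ⟨_, rfl⟩
  have hW0 : 0 < W := by
    have := abs_nonneg μ'
    have := abs_nonneg (gm j)
    rw [hW]
    linarith
  obtain ⟨η', hη'⟩ : ∃ η' : ℝ, η' = η / (2 * W) := ⟨_, rfl⟩
  have hη0 : 0 < η' := by rw [hη']; positivity
  have hηW : η' * W = η / 2 := by
    rw [hη']
    field_simp
  obtain ⟨ε1, hε1, h1⟩ := h1 η' hη0
  obtain ⟨ε2, hε2, h2⟩ := h2 η' hη0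
  refine ⟨min (min ε1 ε2) (min 1 η'), lt_min (lt_min hε1 hε2) (lt_min one_pos hη0), ?_⟩
  intro X g hR
  obtain ⟨ε, hε⟩ : ∃ ε : ℝ, ε = min (min ε1 ε2) (min 1 η') := ⟨_, rfl⟩
  rw [← hε] at hR
  have hεa : ε ≤ ε1 := by rw [hε]; exact (min_le_left _ _).trans (min_le_left _ _)
  have hεb : ε ≤ ε2 := by rw [hε]; exact (min_le_left _ _).trans (min_le_right _ _)
  have hεc : ε ≤ 1 := by rw [hε]; exact (min_le_right _ _).trans (min_le_left _ _)
  have hεd : ε ≤ η' := by rw [hε]; exact (min_le_right _ _).trans (min_le_right _ _)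
  obtain ⟨l1, w1, d1, m1⟩ := h1 X g (us_reg hR hεa)
  obtain ⟨l2, w2, d2, m2⟩ := h2 X g (us_reg hR hεb)
  have hX := hR.1
  have hX1 : (1 : ℝ) ≤ X := by linarith
  have hg := hR.2.1
  have hjN : j + 1 ≤ N := by omega
  have hcast : (((N - (j + 1) : ℕ) : ℝ)) = (N : ℝ) - ((j : ℝ) + 1) := by
    rw [Nat.cast_sub hjN]
    push_cast
    ring
  have hlev : (((N - (j + 1) : ℕ) : ℝ)) * ω + ((j : ℝ) + 1) * ω = N * ω := by
    rw [hcast]
    ring
  obtain ⟨w3, m3, d3⟩ := hB X ω (((N - (j + 1) : ℕ) : ℝ) * ω) B2 j0 j j g l2 hX hω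
    (by positivity) hB2 hj le_rfl w2
  rw [hlev] at w3 m3
  have m3 := m3 hNω
  obtain ⟨w4, m4, d4⟩ := hP X ω j0 j g hX hω hj (fun p => (hg p).1)
  obtain ⟨G, hG⟩ : ∃ G : ℝ, G = ∑ p ∈ bx X ω j, g p := ⟨_, rfl⟩
  rw [← hG] at m3 m4
  have hG0 : 0 ≤ G := by
    rw [hG]
    exact sum_nonneg fun p _ => (hg p).1
  have hGm : |G - gm j| ≤ ε := by
    rw [hG]
    exact hR.2.2 j hj (by omega)
  refine ⟨fun q => l1 q - bm X ω j l2 q + pr2 X ω j q, fun q => ⟨?_, fun hq => ?_⟩,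
    fun n hn => ?_, ?_⟩
  · have a1 := (w1 q).1
    have a2 := (w3 q).1
    have a3 := (w4 q).1
    have a4 := abs_add_le (l1 q - bm X ω j l2 q) (pr2 X ω j q)
    have a5 := abs_sub (l1 q) (bm X ω j l2 q)
    linarith
  · have hor : l1 q ≠ 0 ∨ bm X ω j l2 q ≠ 0 ∨ pr2 X ω j q ≠ 0 := by
      by_contra hcon
      rw [not_or, not_or, not_not, not_not, not_not] at hcon
      apply hq
      change l1 q - bm X ω j l2 q + pr2 X ω j q = 0
      rw [hcon.1, hcon.2.1, hcon.2.2]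
      ring
    rcases hor with h | h | h
    · obtain ⟨b1, b2⟩ := (w1 q).2 h
      exact ⟨⟨b1.1, fun p hp hd => us_Pr _ _ _ _ _ (b1.2 p hp hd)⟩, b2⟩
    · exact (w3 q).2 h
    · obtain ⟨b1, b2⟩ := (w4 q).2 h
      refine ⟨b1, b2.trans (Real.rpow_le_rpow_of_exponent_le hX1 ?_)⟩
      have h5 : 2 * ((j : ℝ) + 1) ≤ N := by
        have h6 : 2 * (j + 1) ≤ N := by omega
        exact_mod_cast h6
      calc 2 * (((j : ℝ) + 1) * ω) = (2 * ((j : ℝ) + 1)) * ω := by ring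
        _ ≤ N * ω := mul_le_mul_of_nonneg_right h5 hω.le
  · have e1 : ∑ q ∈ n.divisors, (l1 q - bm X ω j l2 q + pr2 X ω j q) =
        ∑ q ∈ n.divisors, l1 q - ∑ q ∈ n.divisors, bm X ω j l2 q +
          ∑ q ∈ n.divisors, pr2 X ω j q := by
      rw [sum_add_distrib, sum_sub_distrib]
    rw [e1, d3 n hn, d4 n hn]
    exact us_ind X ω j0 j n hj _ _ (d1 n hn) (d2 n hn)
  · have e1 : ms X g (fun q => l1 q - bm X ω j l2 q + pr2 X ω j q) =
        ms X g l1 - ms X g (bm X ω j l2) + ms X g (pr2 X ω j) := by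
      unfold ms
      rw [← sum_sub_distrib, ← sum_add_distrib]
      exact sum_congr rfl fun q _ => by ring
    rw [e1, m3]
    obtain ⟨g1, g2⟩ := abs_le.1 hGm
    have c1 : G * (μ' - η') ≤ G * ms X g l2 := mul_le_mul_of_nonneg_left m2 hG0
    have hab := abs_nonneg μ'
    have hgm := le_abs_self (gm j)
    have hgm2 := abs_nonneg (gm j)
    -- the three error terms
    have c2 : gm j * μ' - G * μ' ≤ ε * |μ'| := by
      have : gm j * μ' - G * μ' = -((G - gm j) * μ') := by ring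
      rw [this]
      calc -((G - gm j) * μ') ≤ |(G - gm j) * μ'| := neg_le_abs _
        _ = |G - gm j| * |μ'| := abs_mul _ _
        _ ≤ ε * |μ'| := mul_le_mul_of_nonneg_right hGm hab
    have hε0 : 0 ≤ ε := (abs_nonneg _).trans hGm
    have c3 : G ^ 2 / 2 - gm j ^ 2 / 2 ≤ ε * (|gm j| + 1) := by
      have h7 : G ^ 2 / 2 - gm j ^ 2 / 2 = (G - gm j) * ((G + gm j) / 2) := by ring
      rw [h7]
      have h8 : |(G + gm j) / 2| ≤ |gm j| + 1 := by
        have h9 : (G + gm j) / 2 = gm j + (G - gm j) / 2 := by ring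
        rw [h9]
        refine (abs_add_le _ _).trans ?_
        rw [abs_div, abs_two]
        linarith
      calc (G - gm j) * ((G + gm j) / 2) ≤ |(G - gm j) * ((G + gm j) / 2)| := le_abs_self _
        _ = |G - gm j| * |(G + gm j) / 2| := abs_mul _ _
        _ ≤ ε * (|gm j| + 1) := mul_le_mul hGm h8 (abs_nonneg _) hε0
    have c4 : G * η' ≤ (|gm j| + 1) * η' := mul_le_mul_of_nonneg_right (by linarith) hη0.le
    have c5 : ε * |μ'| ≤ η' * |μ'| := mul_le_mul_of_nonneg_right hεd hab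
    have c6 : ε * (|gm j| + 1) ≤ η' * (|gm j| + 1) :=
      mul_le_mul_of_nonneg_right hεd (by linarith)
    rw [hW] at hηW
    have c7 : η' * (|μ'| + 2 * |gm j| + 2) = η' * |μ'| + 2 * (η' * |gm j|) + 2 * η' := by ring
    have c8 : (|gm j| + 1) * η' = η' * |gm j| + η' := by ring
    have c9 : η' * (|gm j| + 1) = η' * |gm j| + η' := by ring
    have c10 : G * (μ' - η') = G * μ' - G * η' := by ring
    have c11 : 0 ≤ η' * |μ'| := mul_nonneg hη0.le hab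
    have c12 : 0 ≤ η' * |gm j| := mul_nonneg hη0.le hgm2
    linarith

end Pool.Agent.Helper2.UP
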