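import Pool.Agent.Helper9.UP.StW

/-! Module WP of project UP (MP_d466de). -/

set_option autoImplicit false

namespace Pool.Agent.Helper2.UP

open Finset Polynomial
open Pool.Agent.Helper9.UP

/-- the square of a sum and the ordered pairs -/
theorem wp_dsum (P : Finset ℕ) (g : ℕ → ℝ) : (∑ p ∈ P, g p) ^ 2 =
    2 * ∑ x ∈ (P ×ˢ P).filter (fun x => x.1 < x.2), g x.1 * g x.2 + ∑ p ∈ P, g p ^ 2 := by
  have h0 : (∑ p ∈ P, g p) ^ 2 = ∑ x ∈ P ×ˢ P, g x.1 * g x.2 := by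
    rw [sq, sum_mul_sum, sum_product]
  have h1 : ∑ x ∈ P ×ˢ P, g x.1 * g x.2 =
      ∑ x ∈ (P ×ˢ P).filter (fun x => x.1 < x.2), g x.1 * g x.2 +
        ∑ x ∈ (P ×ˢ P).filter (fun x => ¬ x.1 < x.2), g x.1 * g x.2 :=
    (sum_filter_add_sum_filter_not _ _ _).symm
  have h2 : ∑ x ∈ (P ×ˢ P).filter (fun x => ¬ x.1 < x.2), g x.1 * g x.2 =
      ∑ x ∈ ((P ×ˢ P).filter (fun x => ¬ x.1 < x.2)).filter (fun x => x.2 < x.1), g x.1 * g x.2 +
        ∑ x ∈ ((P ×ˢ P).filter (fun x => ¬ x.1 < x.2)).filter (fun x => ¬ x.2 < x.1),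
          g x.1 * g x.2 :=
    (sum_filter_add_sum_filter_not _ _ _).symm
  have h3 : ∑ x ∈ ((P ×ˢ P).filter (fun x => ¬ x.1 < x.2)).filter (fun x => x.2 < x.1),
      g x.1 * g x.2 = ∑ x ∈ (P ×ˢ P).filter (fun x => x.1 < x.2), g x.1 * g x.2 := by
    refine sum_nbij' (fun x => (x.2, x.1)) (fun x => (x.2, x.1)) ?_ ?_ ?_ ?_ ?_
    · intro x hx
      rw [mem_filter, mem_filter, mem_product] at hx
      rw [mem_filter, mem_product]
      exact ⟨⟨hx.1.1.2, hx.1.1.1⟩, hx.2⟩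
    · intro x hx
      rw [mem_filter, mem_product] at hx
      rw [mem_filter, mem_filter, mem_product]
      exact ⟨⟨⟨hx.1.2, hx.1.1⟩, not_lt.2 hx.2.le⟩, hx.2⟩
    · intro x _
      rfl
    · intro x _
      rfl
    · intro x _
      exact mul_comm _ _
  have h4 : ∑ x ∈ ((P ×ˢ P).filter (fun x => ¬ x.1 < x.2)).filter (fun x => ¬ x.2 < x.1),
      g x.1 * g x.2 = ∑ p ∈ P, g p ^ 2 := by
    refine sum_nbij' (fun x => x.1) (fun p => (p, p)) ?_ ?_ ?_ ?_ ?_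
    · intro x hx
      rw [mem_filter, mem_filter, mem_product] at hx
      exact hx.1.1.1
    · intro p hp
      rw [mem_filter, mem_filter, mem_product]
      exact ⟨⟨⟨hp, hp⟩, lt_irrefl _⟩, lt_irrefl _⟩
    · intro x hx
      rw [mem_filter, mem_filter, mem_product] at hx
      have : x.1 = x.2 := le_antisymm (not_lt.1 hx.2) (not_lt.1 hx.1.2)
      exact Prod.ext rfl this
    · intro p _
      rfl
    · intro x hx
      rw [mem_filter, mem_filter, mem_product] at hx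
      have : x.1 = x.2 := le_antisymm (not_lt.1 hx.2) (not_lt.1 hx.1.2)
      rw [← this, sq]
  rw [h0, h1, h2, h3, h4]
  ring

theorem wp_inj (x y : ℕ × ℕ) (hx1 : x.1.Prime) (_ : x.2.Prime) (hx : x.1 < x.2)
    (hy1 : y.1.Prime) (hy2 : y.2.Prime) (hy : y.1 < y.2) (h : x.1 * x.2 = y.1 * y.2) : x = y := by
  have h1 : x.1 ∣ y.1 * y.2 := Dvd.intro _ h
  rcases (hx1.dvd_mul).1 h1 with h2 | h2
  · have h3 := (Nat.prime_dvd_prime_iff_eq hx1 hy1).1 h2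
    rw [← h3] at h
    exact Prod.ext h3 (Nat.eq_of_mul_eq_mul_left hx1.pos h)
  · have h3 := (Nat.prime_dvd_prime_iff_eq hx1 hy2).1 h2
    rw [← h3, mul_comm] at h
    have h4 := Nat.eq_of_mul_eq_mul_right hx1.pos h
    omega

theorem wp_GG (g : ℕ → ℝ) (p p' : ℕ) (hp : p.Prime) (hp' : p'.Prime) (h : p < p') :
    GG g (p * p') = g p * g p' := by
  unfold GG
  rw [Nat.primeFactors_mul hp.ne_zero hp'.ne_zero, hp.primeFactors, hp'.primeFactors,
    prod_union (by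
      rw [disjoint_singleton]
      omega), prod_singleton, prod_singleton]

theorem wp_mem (X ω : ℝ) (j p : ℕ) (h : p ∈ bx X ω j) :
    p.Prime ∧ (p : ℝ) ≤ X ^ (((j : ℝ) + 1) * ω) := by
  unfold bx at h
  rw [mem_filter, mem_range] at h
  exact ⟨h.2.1, (Nat.lt_ceil.1 h.1).le⟩

theorem wp_dvd (n p p' : ℕ) (hp : p.Prime) (hp' : p'.Prime) (h : p < p') (h1 : p ∣ n)
    (h2 : p' ∣ n) : p * p' ∣ n :=
  Nat.Coprime.mul_dvd_of_dvd_of_dvd ((Nat.coprime_primes hp hp').2 h.ne) h1 h2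

theorem hWP : StWP := by
  classical
  intro X ω j0 j g hX hω hj hg
  have hX0 : (0 : ℝ) < X := by linarith
  obtain ⟨D, hD⟩ : ∃ D : Finset ℕ → Finset (ℕ × ℕ),
      ∀ P, D P = (P ×ˢ P).filter (fun x => x.1 < x.2) := ⟨_, fun P => rfl⟩
  have hDm : ∀ P x, x ∈ D P ↔ (x.1 ∈ P ∧ x.2 ∈ P) ∧ x.1 < x.2 := by
    intro P x
    rw [hD, mem_filter, mem_product]
  have hinj : ∀ P, P ⊆ bx X ω j → ∀ x ∈ D P, ∀ y ∈ D P, x.1 * x.2 = y.1 * y.2 → x = y := by
    intro P hP x hx y hy h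
    obtain ⟨⟨h1, h2⟩, h3⟩ := (hDm P x).1 hx
    obtain ⟨⟨h4, h5⟩, h6⟩ := (hDm P y).1 hy
    exact wp_inj x y (wp_mem _ _ _ _ (hP h1)).1 (wp_mem _ _ _ _ (hP h2)).1 h3
      (wp_mem _ _ _ _ (hP h4)).1 (wp_mem _ _ _ _ (hP h5)).1 h6 h
  refine ⟨fun q => ⟨?_, fun h => ?_⟩, ?_, fun n hn => ?_⟩
  · unfold pr2
    split_ifs
    · rw [abs_one]
    · rw [abs_zero]
      exact zero_le_one
  · have h0 : ∃ p ∈ bx X ω j, ∃ p' ∈ bx X ω j, p < p' ∧ q = p * p' := by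
      by_contra h1
      exact h (if_neg h1)
    obtain ⟨p, hp, p', hp', hpp, rfl⟩ := h0
    obtain ⟨h1, h2⟩ := wp_mem _ _ _ _ hp
    obtain ⟨h3, h4⟩ := wp_mem _ _ _ _ hp'
    have hPr : ∀ r ∈ bx X ω j, r ∈ Pr X ω j0 (j + 1) := by
      intro r hr
      unfold Pr
      exact mem_biUnion.2 ⟨j, mem_Ico.2 ⟨hj, Nat.lt_succ_self j⟩, hr⟩
    refine ⟨⟨?_, fun r hr hrd => ?_⟩, ?_⟩
    · rw [Nat.squarefree_mul ((Nat.coprime_primes h1 h3).2 hpp.ne)]
      exact ⟨h1.squarefree, h3.squarefree⟩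
    · rcases (hr.dvd_mul).1 hrd with h5 | h5
      · rw [(Nat.prime_dvd_prime_iff_eq hr h1).1 h5]
        exact hPr p hp
      · rw [(Nat.prime_dvd_prime_iff_eq hr h3).1 h5]
        exact hPr p' hp'
    · rw [two_mul, Real.rpow_add hX0]
      push_cast
      exact mul_le_mul h2 h4 (Nat.cast_nonneg _) (Real.rpow_nonneg hX0.le _)
  · have hGn : ∀ q, 0 ≤ GG g q := fun q => prod_nonneg fun p _ => hg p
    have h1 : ms X g (pr2 X ω j) ≤ ∑ q ∈ (D (bx X ω j)).image (fun x => x.1 * x.2), GG g q := by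
      unfold ms
      have h2 : ∀ q ∈ range (⌊X ^ 2⌋₊ + 1), pr2 X ω j q * GG g q =
          if ∃ p ∈ bx X ω j, ∃ p' ∈ bx X ω j, p < p' ∧ q = p * p' then GG g q else 0 := by
        intro q _
        unfold pr2
        split_ifs
        · rw [one_mul]
        · rw [zero_mul]
      rw [sum_congr rfl h2, ← sum_filter]
      refine sum_le_sum_of_subset_of_nonneg (fun q hq => ?_) fun q _ _ => hGn q
      obtain ⟨p, hp, p', hp', hpp, rfl⟩ := (mem_filter.1 hq).2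
      exact mem_image.2 ⟨(p, p'), (hDm _ _).2 ⟨⟨hp, hp'⟩, hpp⟩, rfl⟩
    rw [sum_image (fun x hx y hy h => hinj _ (Subset.refl _) x hx y hy h)] at h1
    have h2 : ∑ x ∈ D (bx X ω j), GG g (x.1 * x.2) = ∑ x ∈ D (bx X ω j), g x.1 * g x.2 := by
      refine sum_congr rfl fun x hx => ?_
      obtain ⟨⟨h3, h4⟩, h5⟩ := (hDm _ x).1 hx
      exact wp_GG g _ _ (wp_mem _ _ _ _ h3).1 (wp_mem _ _ _ _ h4).1 h5
    rw [h2] at h1
    have h3 := wp_dsum (bx X ω j) g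
    rw [← hD] at h3
    have h4 : 0 ≤ ∑ p ∈ bx X ω j, g p ^ 2 := sum_nonneg fun p _ => sq_nonneg _
    rw [h3]
    linarith
  · have h1 : ∑ q ∈ n.divisors, pr2 X ω j q =
        ∑ q ∈ (D ((bx X ω j).filter (fun p => p ∣ n))).image (fun x => x.1 * x.2), (1 : ℝ) := by
      have h2 : (D ((bx X ω j).filter (fun p => p ∣ n))).image (fun x => x.1 * x.2) =
          n.divisors.filter
            (fun q => ∃ p ∈ bx X ω j, ∃ p' ∈ bx X ω j, p < p' ∧ q = p * p') := by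
        ext q
        rw [mem_image, mem_filter, Nat.mem_divisors]
        constructor
        · rintro ⟨x, hx, rfl⟩
          obtain ⟨⟨h3, h4⟩, h5⟩ := (hDm _ x).1 hx
          rw [mem_filter] at h3 h4
          refine ⟨⟨?_, by omega⟩, x.1, h3.1, x.2, h4.1, h5, rfl⟩
          exact wp_dvd n _ _ (wp_mem _ _ _ _ h3.1).1 (wp_mem _ _ _ _ h4.1).1 h5 h3.2 h4.2
        · rintro ⟨⟨h3, h4⟩, p, hp, p', hp', hpp, rfl⟩
          exact ⟨(p, p'), (hDm _ _).2 ⟨⟨mem_filter.2 ⟨hp, (Dvd.intro _ rfl).trans h3⟩,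
            mem_filter.2 ⟨hp', (Dvd.intro_left _ rfl).trans h3⟩⟩, hpp⟩, rfl⟩
      rw [h2, sum_filter]
      rfl
    rw [h1, sum_image (fun x hx y hy h => hinj _ (filter_subset _ _) x hx y hy h)]
    have h3 := wp_dsum ((bx X ω j).filter (fun p => p ∣ n)) (fun _ => (1 : ℝ))
    rw [← hD] at h3
    simp only [sum_const, nsmul_eq_mul, mul_one, one_pow] at h3 ⊢
    unfold ej
    linarith

end Pool.Agent.Helper2.UP
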